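import Mathlib
import Pool.Agent.Helper442.FE.Defs
import Pool.Agent.Helper442.FE.Main
import Pool.Agent.Helper442.FE.Sbo2

namespace Pool.Agent.Results.MP_96faa3_co.NotFinitelyExcluded

open Set Pool.Agent.Helper442.FE

/-! Sanity checks: the class of all finite matroids and the class of gammoids are complete, and the
gammoids are contained in every nonempty complete class. -/

theorem allFinite_isComplete : IsComplete (fun _ M => M.E.Finite) where
  finite h := h
  iso := by
    rintro α β M N ⟨e, _⟩ hM
    have : Finite M.E := hM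
    have : Finite N.E := Finite.of_equiv _ e
    exact Set.toFinite _
  restrict h A hA := h.subset hA
  contract h A _ := h.subset sdiff_subset
  dual h := h
  directSum := by
    intro α β M N hM hN
    show (M.sum N).E.Finite
    rw [Matroid.sum_ground]
    exact (hM.image _).union (hN.image _)
  truncate := by
    intro α M T k hM _ hT
    show T.E.Finite
    rw [hT.1]; exact hM
  induce := by
    intro τ hτ G M₀ N A _ _
    exact Set.toFinite _

theorem gammoid_complete : IsComplete Gammoid := gammoid_isComplete

theorem gammoid_smallest {C : MClass} (hC : IsComplete C) (hne : ∃ (α : Type) (M : Matroid α), C α M)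
    {α : Type} {M : Matroid α} (hM : Gammoid α M) : C α M := hC.gammoid hne hM

theorem gammoid_sbo {α : Type} {M : Matroid α} (hM : Gammoid α M) : SBO α M := by
  refine ⟨hM.finite, ?_⟩
  obtain ⟨τ, hτ, G, V, A, N, hN, hiso⟩ := hM
  exact sbo_iso hiso (induced_sbo hN)

theorem sbo_bo {α : Type} {M : Matroid α} (h : SBO α M) : BO α M := by
  refine ⟨h.1, fun B₁ B₂ h1 h2 => ?_⟩
  obtain ⟨φ, hφ, hX⟩ := h.2 B₁ B₂ h1 h2
  exact ⟨φ, hφ, fun X hXB _ => hX X hXB⟩

/-- None of the three classes of gammoids, of strongly base-orderable matroids and of base-orderable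
matroids is of the form `C̄(M₁, …, M_k)`; nor is any other nonempty complete class of
base-orderable matroids. -/
theorem result : ¬ FinitelyExcluded Gammoid ∧ ¬ FinitelyExcluded SBO ∧ ¬ FinitelyExcluded BO ∧
    ∀ C : MClass, IsComplete C → (∃ (α : Type) (M : Matroid α), C α M) →
      (∀ (α : Type) (M : Matroid α), C α M → BO α M) → ¬ FinitelyExcluded C :=
  ⟨not_finitelyExcluded (fun _ _ h => h) (fun _ _ h => sbo_bo (gammoid_sbo h)),
    not_finitelyExcluded (fun _ _ h => gammoid_sbo h) (fun _ _ h => sbo_bo h),
    not_finitelyExcluded (fun _ _ h => sbo_bo (gammoid_sbo h)) (fun _ _ h => h),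
    fun _ hC hne hBO => not_finitelyExcluded (fun _ _ h => hC.gammoid hne h) hBO⟩

end Pool.Agent.Results.MP_96faa3_co.NotFinitelyExcluded
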